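import Mathlib
import Pool.Agent.H51.PorcB

set_option autoImplicit false

namespace Pool.Agent.Results.MP_38292b_an.Counter

open MeasureTheory Set Filter Topology Sum Pool.Agent.H51.PorcA Pool.Agent.H51.PorcB

/-- Metrizable Choquet simplex. -/
def IsSimplex {V : Type} [AddCommGroup V] [Module ℝ V] [TopologicalSpace V] [MeasurableSpace V]
    (K : Set V) : Prop :=
  IsCompact K ∧ Convex ℝ K ∧ TopologicalSpace.MetrizableSpace K ∧
    ∀ x ∈ K, ∃! ξ : Measure V, IsProbabilityMeasure ξ ∧ ξ (K.extremePoints ℝ)ᶜ = 0 ∧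
      ∀ l : V →L[ℝ] ℝ, ∫ z, l z ∂ξ = l x

/-- Upper semicontinuity. -/
def USC {Y : Type} [TopologicalSpace Y] (g : Y → EReal) : Prop :=
  ∀ t : ℝ, IsOpen {y | g y < t}

/-- Young class LU. -/
def LU {Y : Type} [TopologicalSpace Y] (G : Y → EReal) : Prop :=
  ∃ g : ℕ → Y → EReal, (∀ n, USC (g n)) ∧ (∀ y, Monotone fun n => g n y) ∧
    ∀ y, Tendsto (fun n => g n y) atTop (𝓝 (G y))

/-- `x` is a convex combination with positive weights of exactly the extreme points in `s`. -/
def FinRep {V : Type} [AddCommGroup V] [Module ℝ V] (K : Set V) (x : V)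
    (s : Finset (K.extremePoints ℝ)) : Prop :=
  ∃ p : K.extremePoints ℝ → ℝ, (∀ e ∈ s, 0 < p e) ∧ ∑ e ∈ s, p e = 1 ∧ ∑ e ∈ s, p e • (e : V) = x

/-- `F` is the extension of `f` by the additive rule. -/
def IsAddExt {V : Type} [AddCommGroup V] [Module ℝ V] (K : Set V)
    (f : K.extremePoints ℝ → ℕ∞) (F : K → ℕ∞) : Prop :=
  ∀ x : K, (∀ s, FinRep K x s → F x = ∑ e ∈ s, f e) ∧ ((¬ ∃ s, FinRep K x s) → F x = ⊤)

lemma rep_fin {x : E} {s : Finset (K.extremePoints ℝ)} {p : K.extremePoints ℝ → ℝ}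
    (h1 : ∀ e ∈ s, 0 < p e) (h2 : ∑ e ∈ s, p e = 1) (h3 : ∑ e ∈ s, p e • (e : E) = x) :
    Rep Z (∑ e ∈ s, ENNReal.ofReal (p e) • Measure.dirac (e : E)) x := by
  refine ⟨⟨?_⟩, ?_, fun i => ?_⟩
  · simp [← ENNReal.ofReal_sum_of_nonneg fun e he => (h1 e he).le, h2]
  · rw [ae_finsetSum_measure_iff]
    exact fun e _ => Measure.ae_smul_measure ((ae_dirac_iff Z_meas).2 (ext_eq.subset e.2)) _
  · rw [integral_finset_sum_measure fun e _ =>
      (integrable_dirac (by simp)).smul_measure ENNReal.ofReal_ne_top, ← h3, Finset.sum_apply]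
    exact Finset.sum_congr rfl fun e he => by simp [(h1 e he).le]

lemma fin_uniq {x : E} {s t : Finset (K.extremePoints ℝ)} (hs : FinRep K x s)
    (ht : FinRep K x t) : s ⊆ t := by
  obtain ⟨p, a1, a2, a3⟩ := hs
  obtain ⟨q, b1, b2, b3⟩ := ht
  intro e he
  by_contra h
  have := congrArg (fun μ : Measure E => μ {(e : E)}) (uniq (rep_fin a1 a2 a3) (rep_fin b1 b2 b3))
  simp only [Measure.finset_sum_apply, Measure.smul_apply, smul_eq_mul] at this
  rw [Finset.sum_eq_zero (s := t) fun d hd => by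
    rw [Measure.dirac_apply' _ (measurableSet_singleton _), indicator_of_notMem, mul_zero]
    exact fun h' => h (Subtype.ext h' ▸ hd), Finset.sum_eq_zero_iff] at this
  have := this e he
  simp at this
  linarith [a1 e he]

theorem result : ∃ (V : Type) (_ : AddCommGroup V) (_ : Module ℝ V) (_ : TopologicalSpace V)
    (_ : IsTopologicalAddGroup V) (_ : ContinuousSMul ℝ V) (_ : LocallyConvexSpace ℝ V)
    (_ : T2Space V) (_ : MeasurableSpace V) (_ : BorelSpace V) (K : Set V), IsSimplex K ∧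
    ∃ f : K.extremePoints ℝ → ℕ∞, (∀ e, 1 ≤ f e) ∧ LU (fun e => ((f e : ENNReal) : EReal)) ∧
      ∃ F : K → ℕ∞, IsAddExt K f F ∧ ¬ LU (fun x => ((F x : ENNReal) : EReal)) := by
  classical
  let f : K.extremePoints ℝ → ℕ∞ := fun e => if ∀ s, (e : E) (inr s) = 0 then 5 else 1
  let F : K → ℕ∞ := fun x => if h : ∃ s, FinRep K x s then ∑ e ∈ h.choose, f e else ⊤
  have hF : IsAddExt K f F := fun x => ⟨fun s hs => by
    have h : ∃ s, FinRep K x s := ⟨s, hs⟩
    simp only [F, dif_pos h]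
    rw [(fin_uniq h.choose_spec hs).antisymm (fin_uniq hs h.choose_spec)], fun h => dif_neg h⟩
  refine ⟨E, inferInstance, inferInstance, inferInstance, inferInstance, inferInstance,
    inferInstance, inferInstance, inferInstance, inferInstance, K,
    ⟨K_compact, K_convex, inferInstance, ?_⟩, f, fun e => ?_, ⟨fun _ e => ((f e : ENNReal) : EReal),
      fun _ t => ?_, fun _ => monotone_const, fun _ => tendsto_const_nhds⟩, F, hF, ?_⟩
  · rintro x ⟨_, h0⟩
    obtain ⟨ξ, h⟩ := split h0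
    have := h.prob
    rw [ext_eq]
    exact ⟨ξ, ⟨h.prob, h.ae, (rep_iff h.ae x).2 h⟩,
      fun η ⟨_, b, c⟩ => uniq ((rep_iff b x).1 c) h⟩
  · simp only [f]; split_ifs <;> norm_num
  · have hc : IsClosed {e : K.extremePoints ℝ | ∀ s, (e : E) (inr s) = 0} := by
      rw [setOf_forall]
      exact isClosed_iInter fun s =>
        isClosed_eq ((continuous_apply _).comp continuous_subtype_val) continuous_const
    have e5 : (((5 : ℕ∞) : ENNReal) : EReal) = ((5 : ℝ) : EReal) := by norm_cast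
    have e1 : (((1 : ℕ∞) : ENNReal) : EReal) = ((1 : ℝ) : EReal) := by norm_cast
    have : {e : K.extremePoints ℝ | ((f e : ENNReal) : EReal) < t} =
        {_e | 5 < t} ∪ ({e : K.extremePoints ℝ | ∀ s, (e : E) (inr s) = 0}ᶜ ∩ {_e | 1 < t}) := by
      ext e
      simp only [f, mem_setOf_eq, mem_union, mem_inter_iff, mem_compl_iff]
      split_ifs with h
      · rw [e5, EReal.coe_lt_coe_iff]; simp [h]
      · rw [e1, EReal.coe_lt_coe_iff]
        exact ⟨fun a => Or.inr ⟨h, a⟩, fun a => a.elim (fun b => by linarith) fun b => b.2⟩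
    rw [this]
    exact isOpen_const.union (hc.isOpen_compl.inter isOpen_const)
  rintro ⟨g, g1, g2, g3⟩
  let J := Ioo (0 : ℝ) 1
  haveI : LocallyCompactSpace J := isOpen_Ioo.locallyCompactSpace
  haveI : Nonempty J := ⟨⟨1 / 2, by norm_num [J]⟩⟩
  let ψ : J → K := fun y => ⟨P y 0, T_sub (P_T (Ioo_subset_Icc_self y.2) (Or.inl rfl))⟩
  have cψ : Continuous ψ := (P_cont.comp continuous_subtype_val).subtype_mk _
  have F5 : ∀ y : J, Irrational y → F (ψ y) = 5 := fun y hy => by
    have hz : P y 0 ∈ K.extremePoints ℝ := ext_eq ▸ P_Z' (Ioo_subset_Icc_self y.2) hy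
    rw [(hF (ψ y)).1 {⟨_, hz⟩} ⟨fun _ => 1, by simp, by simp, by simp [ψ]⟩]
    simp [f, P]
  have F2 : ∀ (y : J) (s : ℚ), (s : ℝ) = y → F (ψ y) = 2 := fun y s hy => by
    have hI : (s : ℝ) ∈ Icc (0 : ℝ) 1 := hy ▸ Ioo_subset_Icc_self y.2
    have h1 : P s 1 ∈ K.extremePoints ℝ := ext_eq ▸ P_Z hI (Or.inl rfl)
    have h2 : P s (-1) ∈ K.extremePoints ℝ := ext_eq ▸ P_Z hI (Or.inr rfl)
    have ne : (⟨_, h1⟩ : K.extremePoints ℝ) ≠ ⟨_, h2⟩ := fun h => by
      have := congrFun (congrArg Subtype.val h) (inr s)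
      simp [P] at this; norm_num at this
    rw [(hF (ψ y)).1 {⟨_, h1⟩, ⟨_, h2⟩} ⟨fun _ => 1 / 2, by simp, by
      rw [Finset.sum_pair ne]; norm_num, by
      rw [Finset.sum_pair ne]
      funext i
      rcases i with k | t
      · simp only [ψ, P, ← hy, Pi.add_apply, Pi.smul_apply, smul_eq_mul]; ring
      · simp only [ψ, P, ← hy, Pi.add_apply, Pi.smul_apply, smul_eq_mul]
        split_ifs <;> ring⟩, Finset.sum_pair ne]
    simp only [f]
    rw [if_neg fun h => by simpa [P] using h s, if_neg fun h => by simpa [P] using h s]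
    norm_num
  have om := isOpen_Ioo (a := (0 : ℝ)) (b := 1) |>.isOpenMap_subtype_val
  obtain ⟨i, hi⟩ := nonempty_interior_of_iUnion_of_closed (X := J) (ι := ℕ ⊕ ℚ)
    (f := Sum.elim (fun n => {y | g n (ψ y) < ((3 : ℝ) : EReal)}ᶜ) fun s => {y | (y : ℝ) = s})
    (by
      rintro (n | s)
      · exact ((g1 n 3).preimage cψ).isClosed_compl
      · exact isClosed_eq continuous_subtype_val continuous_const)
    (by
      rw [eq_univ_iff_forall]
      intro y
      rw [mem_iUnion]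
      by_cases hy : Irrational y
      · have := g3 (ψ y)
        simp only [F5 y hy] at this
        obtain ⟨n, hn⟩ := (this.eventually (lt_mem_nhds (a := ((3 : ℝ) : EReal)) (by
          rw [show (((5 : ℕ∞) : ENNReal) : EReal) = ((5 : ℝ) : EReal) by norm_cast,
            EReal.coe_lt_coe_iff]; norm_num))).exists
        exact ⟨inl n, not_lt.2 hn.le⟩
      · obtain ⟨s, hs⟩ := not_not.1 hy
        exact ⟨inr s, hs.symm⟩)
  rcases i with n | s
  · obtain ⟨y, h1, s, hs⟩ := (Rat.denseRange_cast (𝕜 := ℝ) |>.preimage om).inter_open_nonempty _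
      isOpen_interior hi
    refine interior_subset h1 ?_
    have := (g2 (ψ y)).ge_of_tendsto (g3 (ψ y)) n
    simp only [F2 y s hs] at this
    refine this.trans_lt ?_
    rw [show (((2 : ℕ∞) : ENNReal) : EReal) = ((2 : ℝ) : EReal) by norm_cast,
      EReal.coe_lt_coe_iff]; norm_num
  · obtain ⟨y, h1, h2⟩ := (dense_irrational.preimage om).inter_open_nonempty _ isOpen_interior hi
    exact h2 ⟨s, (interior_subset h1).symm⟩

end Pool.Agent.Results.MP_38292b_an.Counter
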